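import Pool.Agent.R713.Concrete

/-!
# MP_23ff89_al: pairwise Leonard pairs need not form a Leonard triple

Over the field with five elements, in dimension three, there are maps `A, B, C` any two of which form
a Leonard pair, such that `A, B, C` is not a Leonard triple: in a basis diagonalising `A` the maps
`B` and `C` are never simultaneously irreducible tridiagonal.
-/

set_option autoImplicit false

namespace Pool.Agent.Results.MP_23ff89_al.NotTriple

open Pool.Agent.R713 Module Matrix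

instance : Fact (Nat.Prime 5) := ⟨by norm_num⟩

/-- the diagonal of `A` -/
def t : Fin 3 → ZMod 5 := ![0, 1, 2]

def MB : Matrix (Fin 3) (Fin 3) (ZMod 5) := !![3, 1, 1; 1, 1, 0; 1, 0, 0]

def MC : Matrix (Fin 3) (Fin 3) (ZMod 5) := !![0, 1, 0; 1, 1, 1; 0, 1, 0]

def P1 : Matrix (Fin 3) (Fin 3) (ZMod 5) := !![0, 1, 0; 1, 0, 0; 0, 0, 1]

def PB1 : Matrix (Fin 3) (Fin 3) (ZMod 5) := !![1, 1, 1; 1, 3, 2; 3, 2, 4]
def QB1 : Matrix (Fin 3) (Fin 3) (ZMod 5) := !![1, 1, 3; 4, 2, 3; 1, 2, 4]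
def PB2 : Matrix (Fin 3) (Fin 3) (ZMod 5) := !![1, 1, 1; 1, 2, 3; 3, 4, 2]
def QB2 : Matrix (Fin 3) (Fin 3) (ZMod 5) := !![1, 1, 3; 1, 2, 4; 4, 2, 3]
def PC1 : Matrix (Fin 3) (Fin 3) (ZMod 5) := !![1, 1, 1; 0, 4, 2; 4, 1, 1]
def QC1 : Matrix (Fin 3) (Fin 3) (ZMod 5) := !![3, 0, 2; 2, 3, 2; 1, 2, 1]
def PC2 : Matrix (Fin 3) (Fin 3) (ZMod 5) := !![1, 1, 1; 2, 0, 4; 1, 4, 1]
def QC2 : Matrix (Fin 3) (Fin 3) (ZMod 5) := !![1, 2, 1; 3, 0, 2; 2, 3, 2]

theorem AB : LeonardPair (Matrix.toLin' (Matrix.diagonal t)) (Matrix.toLin' MB) := by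
  constructor
  · refine DiagTridiag.of_matrix (by norm_num) _ _ P1 P1 (by decide +kernel) ?_ ?_
    · unfold Matrix.IsDiag Pairwise
      decide +kernel
    · unfold IrrTridiag
      decide +kernel
  · refine DiagTridiag.of_matrix (by norm_num) _ _ PB2 QB2 (by decide +kernel) ?_ ?_
    · unfold Matrix.IsDiag Pairwise
      decide +kernel
    · unfold IrrTridiag
      decide +kernel

theorem AC : LeonardPair (Matrix.toLin' (Matrix.diagonal t)) (Matrix.toLin' MC) := by
  constructor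
  · refine DiagTridiag.of_matrix (by norm_num) _ _ 1 1 (by decide +kernel) ?_ ?_
    · unfold Matrix.IsDiag Pairwise
      decide +kernel
    · unfold IrrTridiag
      decide +kernel
  · refine DiagTridiag.of_matrix (by norm_num) _ _ PC2 QC2 (by decide +kernel) ?_ ?_
    · unfold Matrix.IsDiag Pairwise
      decide +kernel
    · unfold IrrTridiag
      decide +kernel

theorem BC : LeonardPair (Matrix.toLin' MB) (Matrix.toLin' MC) := by
  constructor
  · refine DiagTridiag.of_matrix (by norm_num) _ _ PB1 QB1 (by decide +kernel) ?_ ?_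
    · unfold Matrix.IsDiag Pairwise
      decide +kernel
    · unfold IrrTridiag
      decide +kernel
  · refine DiagTridiag.of_matrix (by norm_num) _ _ PC1 QC1 (by decide +kernel) ?_ ?_
    · unfold Matrix.IsDiag Pairwise
      decide +kernel
    · unfold IrrTridiag
      decide +kernel

theorem not_diag : ¬ DiagTridiag₂ (Matrix.toLin' (Matrix.diagonal t)) (Matrix.toLin' MB)
    (Matrix.toLin' MC) := by
  intro h
  obtain ⟨σ, hσ⟩ := h.perm t (by decide +kernel)
  revert σ
  decide +kernel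

theorem result : ∃ A B C : Module.End (ZMod 5) (Fin 3 → ZMod 5),
    LeonardPair A B ∧ LeonardPair A C ∧ LeonardPair B C ∧
      ¬ DiagTridiag₂ A B C ∧ ¬ LeonardTriple A B C :=
  ⟨_, _, _, AB, AC, BC, not_diag, fun h => not_diag h.1⟩

end Pool.Agent.Results.MP_23ff89_al.NotTriple
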